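import Mathlib

set_option autoImplicit false

/-!
# MP_e8be47_lc: barely independent families, the reaping number and the splitting number
-/

namespace Pool.Agent.Results.MP_e8be47_lc.ReapingSplitting

open Cardinal

/-- `A^0 = A` (for `b = false`) and `A^1 = X \ A` (for `b = true`). -/
def pw {X : Type} (b : Bool) (A : Set X) : Set X := if b then Aᶜ else A

/-- `I` is a barely independent family over the cardinal `#X`. -/
structure BarelyIndependent {X : Type} (I : Set (Set X)) : Prop where
  /-- the family is infinite -/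
  infinite : I.Infinite
  /-- every member has full cardinality -/
  card_mem : ∀ A ∈ I, #A = #X
  /-- finite Boolean combinations have full cardinality -/
  finite_inter : ∀ F : Set (Set X), F ⊆ I → F.Finite → ∀ h : Set X → Bool,
    #(⋂ A ∈ F, pw (h A) A : Set X) = #X
  /-- countably infinite Boolean combinations are small -/
  countable_inter : ∀ F : Set (Set X), F ⊆ I → F.Countable → F.Infinite →
    ∀ h : Set X → Bool, #(⋂ A ∈ F, pw (h A) A : Set X) < #X

/-- There is a barely independent family over the cardinal `κ`. -/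
def ExistsBIF (κ : Cardinal.{0}) : Prop :=
  ∃ X : Type, #X = κ ∧ ∃ I : Set (Set X), BarelyIndependent I

/-- The set `x` splits the set `S`. -/
def Splits (x S : Set ℕ) : Prop := (S ∩ x).Infinite ∧ (S \ x).Infinite

/-- The splitting number `𝔰`: least size of a family of sets of natural numbers such that every
infinite set is split by a member of the family. -/
noncomputable def splittingNumber : Cardinal.{0} :=
  sInf {κ | ∃ F : Set (Set ℕ), #F = κ ∧ ∀ S : Set ℕ, S.Infinite → ∃ x ∈ F, Splits x S}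

/-- The reaping number `𝔯`: least size of a family of infinite sets of natural numbers which are not
all split by one single set. -/
noncomputable def reapingNumber : Cardinal.{0} :=
  sInf {κ | ∃ R : Set (Set ℕ), #R = κ ∧ (∀ S ∈ R, S.Infinite) ∧
    ∀ x : Set ℕ, ∃ S ∈ R, ¬ Splits x S}

/-- The common argument: for a fixed infinite set `S`, few points have a trace not splitting `S`. -/
theorem key {X : Type} {I : Set (Set X)} (hI : BarelyIndependent I) (A : ℕ → Set X)
    (hA : Function.Injective A) (hm : ∀ n, A n ∈ I) (S : Set ℕ)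
    (hS : S.Infinite) (hω : ℵ₀ < (#X).ord.cof) :
    #{a : X | ¬ Splits {n | a ∈ A n} S} < #X := by
  have hX : ℵ₀ ≤ #X := hω.le.trans (Ordinal.cof_ord_le _)
  by_contra hcon
  have hYX : #{a : X | ¬ Splits {n | a ∈ A n} S} = #X :=
    le_antisymm (Cardinal.mk_set_le _) (not_lt.1 hcon)
  have h1 : ∀ a : {a : X | ¬ Splits {n | a ∈ A n} S}, ∃ p : ℕ × Bool,
      ∀ n ∈ S, p.1 ≤ n → (a : X) ∈ pw p.2 (A n) := by
    rintro ⟨a, hi⟩
    simp only [Splits, Set.mem_ofPred_eq] at hi
    rw [not_and_or, Set.not_infinite, Set.not_infinite] at hi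
    rcases hi with hi | hi
    · obtain ⟨k, hk⟩ := hi.bddAbove
      refine ⟨(k + 1, true), fun n hn hkn => ?_⟩
      simp only [pw, if_true, Set.mem_compl_iff]
      intro han
      have := hk (show n ∈ S ∩ {n | a ∈ A n} from ⟨hn, han⟩)
      simp only at hkn
      omega
    · obtain ⟨k, hk⟩ := hi.bddAbove
      refine ⟨(k + 1, false), fun n hn hkn => ?_⟩
      simp only [pw, Bool.false_eq_true, if_false]
      by_contra han
      have := hk (show n ∈ S \ {n | a ∈ A n} from ⟨hn, han⟩)
      simp only at hkn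
      omega
  choose f hf using h1
  have hcard : #(ℕ × Bool) < (#{a : X | ¬ Splits {n | a ∈ A n} S}).ord.cof := by
    rw [hYX]
    exact (Cardinal.mk_le_aleph0 (α := ℕ × Bool)).trans_lt hω
  obtain ⟨p, hp⟩ := Cardinal.infinite_pigeonhole f (by rw [hYX]; exact hX) hcard
  have hsub : (Subtype.val '' (f ⁻¹' {p}) : Set X) ⊆
      ⋂ B ∈ A '' {n | n ∈ S ∧ p.1 ≤ n}, pw ((fun _ => p.2) B) B := by
    rintro _ ⟨a, ha, rfl⟩
    simp only [Set.mem_iInter]
    rintro B ⟨n, ⟨hn, hkn⟩, rfl⟩
    have hfa : f a = p := ha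
    have := hf a n hn (by rw [hfa]; exact hkn)
    rw [hfa] at this
    exact this
  have hinf : {n | n ∈ S ∧ p.1 ≤ n}.Infinite := by
    have : {n | n ∈ S ∧ p.1 ≤ n} = S \ {n | n < p.1} := by
      ext n; simp
    rw [this]
    exact hS.sdiff (Set.finite_lt_nat _)
  have hlt := hI.countable_inter (A '' {n | n ∈ S ∧ p.1 ≤ n})
    (by rintro B ⟨n, -, rfl⟩; exact hm n) (Set.countable_range A |>.mono (Set.image_subset_range _ _))
    (hinf.image hA.injOn) (fun _ => p.2)
  have h3 : #(Subtype.val '' (f ⁻¹' {p}) : Set X) = #X := by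
    rw [Cardinal.mk_image_eq Subtype.val_injective, hp, hYX]
  exact absurd ((Cardinal.mk_le_mk_of_subset hsub).trans_lt hlt) (by rw [h3]; exact lt_irrefl _)

/-- Few unsplit sets cannot catch all traces. -/
theorem key2 {X : Type} {I : Set (Set X)} (hI : BarelyIndependent I) (A : ℕ → Set X)
    (hA : Function.Injective A) (hm : ∀ n, A n ∈ I) {ι : Type} (S : ι → Set ℕ)
    (hS : ∀ i, (S i).Infinite) (hω : ℵ₀ < (#X).ord.cof) (hι : #ι < (#X).ord.cof)
    (hcov : ∀ a : X, ∃ i, ¬ Splits {n | a ∈ A n} (S i)) : False := by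
  have hX : ℵ₀ ≤ #X := hω.le.trans (Ordinal.cof_ord_le _)
  choose f hf using hcov
  obtain ⟨i, hi⟩ := Cardinal.infinite_pigeonhole f hX hι
  have hsub : f ⁻¹' {i} ⊆ {a : X | ¬ Splits {n | a ∈ A n} (S i)} := by
    intro a ha
    have hfa : f a = i := ha
    show ¬ Splits {n | a ∈ A n} (S i)
    rw [← hfa]
    exact hf a
  exact absurd ((Cardinal.mk_le_mk_of_subset hsub).trans_lt (key hI A hA hm (S i) (hS i) hω))
    (by rw [hi]; exact lt_irrefl _)

theorem exists_seq {X : Type} {I : Set (Set X)} (hI : BarelyIndependent I) :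
    ∃ A : ℕ → Set X, Function.Injective A ∧ ∀ n, A n ∈ I :=
  ⟨fun n => (hI.infinite.natEmbedding I n : Set X),
    fun _ _ h => (hI.infinite.natEmbedding I).injective (Subtype.ext h),
    fun n => (hI.infinite.natEmbedding I n).2⟩

/-- No barely independent family over a cardinal below `𝔰` of uncountable cofinality. -/
theorem none_below_splitting {κ : Cardinal.{0}} (hω : ℵ₀ < κ.ord.cof) (hκ : κ < splittingNumber) :
    ¬ ExistsBIF κ := by
  rintro ⟨X, rfl, I, hI⟩
  obtain ⟨A, hA, hm⟩ := exists_seq hI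
  have hns := notMem_of_lt_csInf' (lt_of_le_of_lt
    (Cardinal.mk_range_le (f := fun a : X => {n | a ∈ A n})) hκ)
  have : ¬ ∀ S : Set ℕ, S.Infinite → ∃ x ∈ Set.range (fun a : X => {n | a ∈ A n}), Splits x S :=
    fun h => hns ⟨_, rfl, h⟩
  push Not at this
  obtain ⟨S, hS, hSn⟩ := this
  exact key2 hI A hA hm (ι := Unit) (fun _ => S) (fun _ => hS) hω
    (by simpa using Cardinal.one_lt_aleph0.trans hω)
    (fun a => ⟨(), hSn _ ⟨a, rfl⟩⟩)

theorem reaping_mem : reapingNumber ∈ {κ : Cardinal.{0} | ∃ R : Set (Set ℕ), #R = κ ∧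
    (∀ S ∈ R, S.Infinite) ∧ ∀ x : Set ℕ, ∃ S ∈ R, ¬ Splits x S} := by
  apply csInf_mem
  refine ⟨_, {S : Set ℕ | S.Infinite}, rfl, fun S hS => hS, fun x => ?_⟩
  by_cases hx : x.Infinite
  · exact ⟨x, hx, fun h => by simpa using h.2⟩
  · refine ⟨xᶜ, (Set.not_infinite.1 hx).infinite_compl, fun h => ?_⟩
    simpa using h.1

theorem reaping_le_continuum : reapingNumber ≤ 𝔠 := by
  obtain ⟨R, hR, -⟩ := reaping_mem
  rw [← hR]
  calc #R ≤ #(Set ℕ) := Cardinal.mk_set_le R
    _ = 𝔠 := by simp

/-- No barely independent family over a cardinal whose cofinality is above `𝔯`. -/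
theorem none_above_reaping {κ : Cardinal.{0}} (hω : ℵ₀ < κ.ord.cof)
    (hκ : reapingNumber < κ.ord.cof) : ¬ ExistsBIF κ := by
  rintro ⟨X, rfl, I, hI⟩
  obtain ⟨A, hA, hm⟩ := exists_seq hI
  obtain ⟨R, hR, hRi, hRs⟩ := reaping_mem
  refine key2 hI A hA hm (ι := R) (fun S => (S : Set ℕ)) (fun S => hRi _ S.2) hω
    (by rw [hR]; exact hκ) (fun a => ?_)
  obtain ⟨S, hS, h⟩ := hRs {n | a ∈ A n}
  exact ⟨⟨S, hS⟩, h⟩

/-- A family of `#W` sets such that every infinite set is split by all but fewer than `#W` of them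
gives a barely independent family over `#W`. -/
theorem exists_of_seq {W : Type} (hWu : ℵ₀ < #W) (x : W → Set ℕ)
    (hx : ∀ S : Set ℕ, S.Infinite → #{a : W | ¬ Splits (x a) S} < #W) : ExistsBIF #W := by
  classical
  have : Nonempty W := by
    rw [← Cardinal.mk_ne_zero_iff]
    exact (Cardinal.aleph0_pos.trans hWu).ne'
  let X : Type := W × Finset ℕ × ℕ
  have hX : #X = #W := by
    have e1 : #X = #W * (#(Finset ℕ) * #ℕ) := by simp [X, Cardinal.mk_prod]
    rw [e1, Cardinal.mk_finset_of_infinite, Cardinal.mk_nat, Cardinal.aleph0_mul_aleph0,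
      Cardinal.mul_aleph0_eq hWu.le]
  let y : X → Set ℕ := fun p => {n | (p.2.2 ≤ n ∧ n ∈ x p.1) ∨ (n < p.2.2 ∧ n ∈ p.2.1)}
  let A : ℕ → Set X := fun n => {p | n ∈ y p}
  have hA : Function.Injective A := by
    intro n m hnm
    by_contra hne
    obtain ⟨w⟩ := (inferInstance : Nonempty W)
    have h1 : ((w, {n}, max n m + 1) : X) ∈ A n := by
      right
      refine ⟨?_, ?_⟩
      · show n < max n m + 1
        omega
      · show n ∈ ({n} : Finset ℕ)
        simp
    rw [hnm] at h1
    rcases h1 with ⟨h1, -⟩ | ⟨-, h1⟩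
    · have : max n m + 1 ≤ m := h1
      omega
    · have : m ∈ ({n} : Finset ℕ) := h1
      simp at this
      exact hne this.symm
  have hfin : ∀ F : Set (Set X), F ⊆ Set.range A → F.Finite → ∀ h : Set X → Bool,
      #(⋂ B ∈ F, pw (h B) B : Set X) = #X := by
    intro F hF hFf h
    apply le_antisymm (Cardinal.mk_set_le _)
    have hN : (A ⁻¹' F).Finite := hFf.preimage hA.injOn
    let N := hN.toFinset
    let k := N.sup id + 1
    let t := N.filter (fun n => h (A n) = false)
    have hinj : Function.Injective (fun w : W => ((w, t, k) : X)) := by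
      intro a b hab
      exact (Prod.ext_iff.1 hab).1
    rw [hX]
    have hmem : ∀ w : W, ((w, t, k) : X) ∈ (⋂ B ∈ F, pw (h B) B : Set X) := by
      intro w
      simp only [Set.mem_iInter]
      intro B hB
      obtain ⟨n, rfl⟩ := hF hB
      have hnN : n ∈ N := by
        simp only [N, Set.Finite.mem_toFinset]
        exact hB
      have hnk : n < k := Nat.lt_succ_of_le (Finset.le_sup (f := id) hnN)
      by_cases hb : h (A n) = false
      · rw [hb]
        simp only [pw, Bool.false_eq_true, if_false]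
        right
        exact ⟨hnk, Finset.mem_filter.2 ⟨hnN, hb⟩⟩
      · have hb' : h (A n) = true := by simpa using hb
        rw [hb']
        simp only [pw, if_true, Set.mem_compl_iff]
        rintro (⟨h1, -⟩ | ⟨-, h1⟩)
        · exact absurd hnk (not_lt.2 h1)
        · exact hb (Finset.mem_filter.1 h1).2
    exact Cardinal.mk_le_of_injective (f := fun w : W =>
      (⟨((w, t, k) : X), hmem w⟩ : (⋂ B ∈ F, pw (h B) B : Set X)))
      (fun a b hab => hinj (congrArg Subtype.val hab))
  refine ⟨X, hX, Set.range A, ?_, ?_, hfin, ?_⟩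
  · exact Set.infinite_range_of_injective hA
  · rintro B ⟨n, rfl⟩
    have := hfin {A n} (by rintro B rfl; exact ⟨n, rfl⟩) (Set.finite_singleton _) (fun _ => false)
    simpa [pw] using this
  · intro F hF _ hFi h
    rw [hX]
    have hNi : (A ⁻¹' F).Infinite := by
      intro hfinN
      apply hFi
      have : F = A '' (A ⁻¹' F) := by
        rw [Set.image_preimage_eq_inter_range, Set.inter_eq_left.2 hF]
      rw [this]
      exact hfinN.image A
    have hb : ∃ b : Bool, {n | n ∈ A ⁻¹' F ∧ h (A n) = b}.Infinite := by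
      by_contra hcon
      push Not at hcon
      have h0 := hcon false
      have h1 := hcon true
      apply hNi
      apply (h0.union h1).subset
      intro n hn
      cases hc : h (A n)
      · left; exact ⟨hn, hc⟩
      · right; exact ⟨hn, hc⟩
    obtain ⟨b, hb⟩ := hb
    have hsub : (⋂ B ∈ F, pw (h B) B : Set X) ⊆
        {a : W | ¬ Splits (x a) {n | n ∈ A ⁻¹' F ∧ h (A n) = b}} ×ˢ
          (Set.univ : Set (Finset ℕ × ℕ)) := by
      intro p hp
      refine ⟨?_, trivial⟩
      show ¬ Splits (x p.1) {n | n ∈ A ⁻¹' F ∧ h (A n) = b}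
      intro hs
      simp only [Set.mem_iInter] at hp
      obtain ⟨n, hn, hnk⟩ := hs.1.exists_gt p.2.2
      obtain ⟨m, hm, hmk⟩ := hs.2.exists_gt p.2.2
      have hn1 := hp (A n) hn.1.1
      have hm1 := hp (A m) hm.1.1
      rw [show h (A n) = b from hn.1.2] at hn1
      rw [show h (A m) = b from hm.1.2] at hm1
      have hnA : p ∈ A n := Or.inl ⟨hnk.le, hn.2⟩
      have hmA : p ∉ A m := by
        rintro (⟨-, h2⟩ | ⟨h2, -⟩)
        · exact hm.2 h2
        · exact absurd hmk (not_lt.2 h2.le)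
      cases b
      · simp only [pw, Bool.false_eq_true, if_false] at hm1
        exact hmA hm1
      · simp only [pw, if_true, Set.mem_compl_iff] at hn1
        exact hn1 hnA
    refine (Cardinal.mk_le_mk_of_subset hsub).trans_lt ?_
    rw [Cardinal.mk_setProd, Cardinal.mk_univ, Cardinal.mk_prod]
    simp only [Cardinal.lift_id, Cardinal.mk_finset_of_infinite, Cardinal.mk_nat,
      Cardinal.aleph0_mul_aleph0]
    exact Cardinal.mul_lt_of_lt hWu.le (hx _ hb) hWu

/-- Barely independent families over `κ` (of uncountable cofinality) are the same thing as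
`κ`-sequences of sets for which every infinite set is split by all but fewer than `κ` terms. -/
theorem char {κ : Cardinal.{0}} (hω : ℵ₀ < κ.ord.cof) :
    ExistsBIF κ ↔ ∃ W : Type, #W = κ ∧ ∃ x : W → Set ℕ,
      ∀ S : Set ℕ, S.Infinite → #{a : W | ¬ Splits (x a) S} < κ := by
  constructor
  · rintro ⟨X, rfl, I, hI⟩
    obtain ⟨A, hA, hm⟩ := exists_seq hI
    exact ⟨X, rfl, fun a => {n | a ∈ A n}, fun S hS => key hI A hA hm S hS hω⟩
  · rintro ⟨W, rfl, x, hx⟩
    exact exists_of_seq (hω.trans_le (Ordinal.cof_ord_le _)) x hx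

/-- If `𝔯 = 𝔠` then there is a barely independent family over the continuum. -/
theorem exists_of_reaping (h : reapingNumber = 𝔠) : ExistsBIF 𝔠 := by
  classical
  let W : Type := (𝔠 : Cardinal.{0}).ord.ToType
  have hW : #W = 𝔠 := by simp [W]
  have : Nonempty W := by
    rw [← Cardinal.mk_ne_zero_iff, hW]
    exact Cardinal.continuum_ne_zero
  have : Nonempty {S : Set ℕ // S.Infinite} := ⟨⟨Set.univ, Set.infinite_univ⟩⟩
  have hemb : Nonempty ({S : Set ℕ // S.Infinite} ↪ W) := by
    rw [← Cardinal.le_def, hW]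
    calc #{S : Set ℕ // S.Infinite} ≤ #(Set ℕ) := Cardinal.mk_subtype_le _
      _ = 𝔠 := by simp
  obtain ⟨e⟩ := hemb
  let g : W → {S : Set ℕ // S.Infinite} := Function.invFun e
  have hg : Function.Surjective g := Function.invFun_surjective e.injective
  have hIio : ∀ β : W, #(Set.Iio β) < 𝔠 := fun β => by
    have := Cardinal.mk_Iio_lt β (by simp [W])
    rwa [hW] at this
  have hx : ∀ α : W, ∃ x : Set ℕ, ∀ β < α, Splits x (g β) := by
    intro α
    have h1 : #((fun β => (g β : Set ℕ)) '' Set.Iio α) < reapingNumber := by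
      rw [h]
      exact Cardinal.mk_image_le.trans_lt (hIio α)
    have h2 := notMem_of_lt_csInf' h1
    by_contra hcon
    push Not at hcon
    refine h2 ⟨_, rfl, ?_, fun x => ?_⟩
    · rintro S ⟨β, -, rfl⟩
      exact (g β).2
    · obtain ⟨β, hβ, hs⟩ := hcon x
      exact ⟨_, ⟨β, hβ, rfl⟩, hs⟩
  choose x hx using hx
  have hmain : ExistsBIF #W := by
    refine exists_of_seq (by rw [hW]; exact Cardinal.aleph0_lt_continuum) x fun S hS => ?_
    obtain ⟨β, hβ⟩ := hg ⟨S, hS⟩
    have hsub : {a : W | ¬ Splits (x a) S} ⊆ insert β (Set.Iio β) := by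
      intro a ha
      by_contra hlt
      simp only [Set.mem_insert_iff, Set.mem_Iio, not_or, not_lt] at hlt
      have := hx a β (lt_of_le_of_ne hlt.2 (Ne.symm hlt.1))
      rw [hβ] at this
      exact ha this
    refine (Cardinal.mk_le_mk_of_subset hsub).trans_lt ?_
    rw [hW]
    refine (Cardinal.mk_insert_le).trans_lt ?_
    exact Cardinal.add_lt_of_lt Cardinal.aleph0_le_continuum (hIio β)
      (Cardinal.one_lt_aleph0.trans Cardinal.aleph0_lt_continuum)
  rwa [hW] at hmain

theorem splitting_le_continuum : splittingNumber ≤ 𝔠 := by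
  have h : (#(Set.univ : Set (Set ℕ))) ∈ {κ : Cardinal.{0} | ∃ F : Set (Set ℕ), #F = κ ∧
      ∀ S : Set ℕ, S.Infinite → ∃ x ∈ F, Splits x S} := by
    refine ⟨Set.univ, rfl, fun S hS => ?_⟩
    have : Infinite S := hS.to_subtype
    obtain ⟨f⟩ : Nonempty (ℕ ↪ S) := ⟨Infinite.natEmbedding S⟩
    refine ⟨Set.range (fun n => (f (2 * n) : ℕ)), trivial, ?_, ?_⟩
    · apply Set.Infinite.mono (s := Set.range (fun n => (f (2 * n) : ℕ)))
      · rintro _ ⟨n, rfl⟩
        exact ⟨(f (2 * n)).2, n, rfl⟩
      · apply Set.infinite_range_of_injective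
        intro a b hab
        have := f.injective (Subtype.ext hab)
        omega
    · apply Set.Infinite.mono (s := Set.range (fun n => (f (2 * n + 1) : ℕ)))
      · rintro _ ⟨n, rfl⟩
        refine ⟨(f (2 * n + 1)).2, ?_⟩
        rintro ⟨m, hm⟩
        have := f.injective (Subtype.ext hm)
        omega
      · apply Set.infinite_range_of_injective
        intro a b hab
        have := f.injective (Subtype.ext hab)
        omega
  calc splittingNumber ≤ #(Set.univ : Set (Set ℕ)) := csInf_le' h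
    _ = 𝔠 := by simp

/-- `𝔯` is uncountable. -/
theorem aleph_one_le_reaping : ℵ_ 1 ≤ reapingNumber := by
  rw [← Cardinal.succ_aleph0, Order.succ_le_iff]
  by_contra hcon
  rw [not_lt] at hcon
  obtain ⟨R, hR, hRi, hRs⟩ := reaping_mem
  rw [← hR, Cardinal.le_aleph0_iff_set_countable] at hcon
  have hne : R.Nonempty := by
    obtain ⟨S, hS, -⟩ := hRs ∅
    exact ⟨S, hS⟩
  obtain ⟨S, hS⟩ := hcon.exists_eq_range hne
  have hSi : ∀ n, (S n).Infinite := fun n => hRi _ (by rw [hS]; exact ⟨n, rfl⟩)
  have hg : ∀ i y : ℕ, ∃ z, z ∈ S (Nat.unpair i).1 ∧ y < z := fun i y => (hSi _).exists_gt y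
  choose g hg1 hg2 using hg
  let a : ℕ → ℕ := fun n => Nat.rec (g 0 0) (fun i y => g (i + 1) y) n
  have ha : StrictMono a := strictMono_nat_of_lt_succ fun n => hg2 (n + 1) (a n)
  have hmem : ∀ n, a n ∈ S (Nat.unpair n).1 := by
    intro n
    cases n with
    | zero => exact hg1 0 0
    | succ n => exact hg1 (n + 1) (a n)
  obtain ⟨T, hT, hTs⟩ := hRs {z | ∃ i, z = a i ∧ (Nat.unpair i).2 % 2 = 0}
  rw [hS] at hT
  obtain ⟨n, rfl⟩ := hT
  apply hTs
  constructor
  · apply Set.Infinite.mono (s := Set.range (fun m => a (Nat.pair n (2 * m))))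
    · rintro _ ⟨m, rfl⟩
      refine ⟨?_, Nat.pair n (2 * m), rfl, by simp⟩
      have := hmem (Nat.pair n (2 * m))
      simpa using this
    · apply Set.infinite_range_of_injective
      intro b c hbc
      have h1 := ha.injective hbc
      rw [Nat.pair_eq_pair] at h1
      omega
  · apply Set.Infinite.mono (s := Set.range (fun m => a (Nat.pair n (2 * m + 1))))
    · rintro _ ⟨m, rfl⟩
      refine ⟨?_, ?_⟩
      · have := hmem (Nat.pair n (2 * m + 1))
        simpa using this
      · rintro ⟨i, hi, hi2⟩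
        have h1 := ha.injective hi
        rw [← h1] at hi2
        simp at hi2
    · apply Set.infinite_range_of_injective
      intro b c hbc
      have h1 := ha.injective hbc
      rw [Nat.pair_eq_pair] at h1
      omega

/-- **Main result.** Let `𝔠 = ω₂`. A barely independent family over `ω₁` or over `𝔠` exists iff
`𝔯 = 𝔠` or there are `ω₁` sets such that every infinite set of natural numbers is split by all but
countably many of them. If `𝔯 < 𝔰`, then there is none over `ω₁` and none over `𝔠`. -/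
theorem result (hc : (𝔠 : Cardinal.{0}) = ℵ_ 2) :
    ((ExistsBIF (ℵ_ 1) ∨ ExistsBIF 𝔠) ↔
      (reapingNumber = 𝔠 ∨ ∃ W : Type, #W = ℵ_ 1 ∧ ∃ x : W → Set ℕ,
        ∀ S : Set ℕ, S.Infinite → {a : W | ¬ Splits (x a) S}.Countable)) ∧
    (reapingNumber < splittingNumber → ¬ ExistsBIF (ℵ_ 1) ∧ ¬ ExistsBIF 𝔠) := by
  have hreg2 : (𝔠 : Cardinal.{0}).IsRegular := by
    rw [hc]
    have h2 : (2 : Ordinal.{0}) = 1 + 1 := by norm_num
    rw [h2]
    exact Cardinal.isRegular_aleph_add_one 1
  have hω1 : ℵ₀ < (ℵ_ 1 : Cardinal.{0}).ord.cof := by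
    rw [Cardinal.isRegular_aleph_one.cof_ord]
    exact Cardinal.aleph0_lt_aleph_one
  have hcc : ExistsBIF 𝔠 ↔ reapingNumber = 𝔠 := by
    refine ⟨fun hE => ?_, exists_of_reaping⟩
    by_contra hne
    have hlt := lt_of_le_of_ne reaping_le_continuum hne
    refine none_above_reaping (κ := 𝔠) ?_ ?_ hE
    · rw [hreg2.cof_ord]; exact Cardinal.aleph0_lt_continuum
    · rw [hreg2.cof_ord]; exact hlt
  have h1 : ExistsBIF (ℵ_ 1) ↔ ∃ W : Type, #W = ℵ_ 1 ∧ ∃ x : W → Set ℕ,
        ∀ S : Set ℕ, S.Infinite → {a : W | ¬ Splits (x a) S}.Countable := by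
    rw [char hω1]
    simp only [Cardinal.lt_aleph_one_iff, Cardinal.le_aleph0_iff_set_countable]
  refine ⟨by rw [h1, hcc, or_comm], fun hrs => ⟨?_, ?_⟩⟩
  · exact none_below_splitting hω1 (aleph_one_le_reaping.trans_lt hrs)
  · rw [hcc]
    intro h
    rw [h] at hrs
    exact absurd splitting_le_continuum (not_le.2 hrs)

end Pool.Agent.Results.MP_e8be47_lc.ReapingSplitting
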